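import Pool.Agent.J6H36.BSV.Defs2

/-! Module P1D: the discriminant is a constant. -/

set_option autoImplicit false

universe u w

namespace Pool.Agent.J6H75.BSV

open Polynomial IntermediateField Pool.Agent.J6H36.BSV
open scoped IntermediateField.algebraAdjoinAdjoin

section

variable {K F : Type u} [Field K] [Field F] [Algebra K F] {t : F}

theorem mem_A {x : F} (h : x ∈ Algebra.adjoin K ({t} : Set F)) : ∃ p : K[X], aeval t p = x := by
  rw [Algebra.adjoin_singleton_eq_range_aeval] at h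
  exact h

theorem A_mem (p : K[X]) : aeval t p ∈ Algebra.adjoin K ({t} : Set F) := by
  rw [Algebra.adjoin_singleton_eq_range_aeval]
  exact ⟨p, rfl⟩

theorem map_aeval {b : K} (τ : F →ₐ[K] F) (hτ : τ t = t + algebraMap K F b) (p : K[X]) :
    τ (aeval t p) = aeval t (p.comp (X + C b)) := by
  rw [← aeval_algHom_apply, hτ, aeval_comp]
  simp

theorem map_mem_A {b : K} (τ : F →ₐ[K] F) (hτ : τ t = t + algebraMap K F b) {x : F}
    (hx : x ∈ Algebra.adjoin K ({t} : Set F)) : τ x ∈ Algebra.adjoin K ({t} : Set F) := by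
  obtain ⟨p, rfl⟩ := mem_A hx
  rw [map_aeval τ hτ]
  exact A_mem _

theorem map_mem_L {b : K} (τ : F →ₐ[K] F) (hτ : τ t = t + algebraMap K F b) {x : F}
    (hx : x ∈ K⟮t⟯) : τ x ∈ K⟮t⟯ := by
  obtain ⟨r, s, rfl⟩ := (mem_adjoin_simple_iff K x).1 hx
  rw [map_div₀, map_aeval τ hτ, map_aeval τ hτ]
  exact (mem_adjoin_simple_iff K _).2 ⟨_, _, rfl⟩

theorem fix_L (τ : F →ₐ[K] F) (hτ : τ t = t) {x : F} (hx : x ∈ K⟮t⟯) : τ x = x := by
  obtain ⟨r, s, rfl⟩ := (mem_adjoin_simple_iff K x).1 hx
  rw [map_div₀, ← aeval_algHom_apply, ← aeval_algHom_apply, hτ]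

theorem bij_of_fix [FiniteDimensional K⟮t⟯ F] (τ : F →ₐ[K] F) (hτ : τ t = t) :
    Function.Bijective τ := by
  let τ' : F →ₐ[K⟮t⟯] F := { τ with commutes' := fun x => fix_L τ hτ x.2 }
  exact Algebra.IsAlgebraic.algHom_bijective τ'

theorem int_map {b : K} (τ : F →ₐ[K] F) (hτ : τ t = t + algebraMap K F b) {x : F}
    (hx : IsIntegral (Algebra.adjoin K ({t} : Set F)) x) :
    IsIntegral (Algebra.adjoin K ({t} : Set F)) (τ x) := by
  let φ : Algebra.adjoin K ({t} : Set F) →+* Algebra.adjoin K ({t} : Set F) :=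
    ((τ : F →+* F).comp (Algebra.adjoin K ({t} : Set F)).subtype).codRestrict
      (Algebra.adjoin K ({t} : Set F)) (fun x => map_mem_A τ hτ x.2)
  exact hx.map_of_comp_eq φ (τ : F →+* F) (by ext x; rfl)

variable {N : ℕ} {e : Fin N → F}

theorem li_L (he : RB K t N e) : LinearIndependent K⟮t⟯ e := by
  have hA : LinearIndependent (Algebra.adjoin K ({t} : Set F)) e := by
    rw [Fintype.linearIndependent_iff]
    intro g hg
    choose c hc using fun i => mem_A (g i).2
    have h1 := he.li c (by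
      rw [← hg]
      refine Finset.sum_congr rfl fun i _ => ?_
      rw [hc i]
      rfl)
    intro i
    apply Subtype.ext
    rw [← hc i, h1]
    simp
  exact (LinearIndependent.iff_fractionRing (Algebra.adjoin K ({t} : Set F)) K⟮t⟯).1 hA

theorem span_L [FiniteDimensional K⟮t⟯ F] (he : RB K t N e) :
    ⊤ ≤ Submodule.span K⟮t⟯ (Set.range e) := by
  intro y _
  have h1 : IsAlgebraic (Algebra.adjoin K ({t} : Set F)) y :=
    (IsFractionRing.isAlgebraic_iff (Algebra.adjoin K ({t} : Set F)) K⟮t⟯ F).2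
      (Algebra.IsAlgebraic.isAlgebraic y)
  obtain ⟨a, ha0, ha⟩ := h1.exists_integral_multiple
  obtain ⟨c, hc⟩ := he.span _ ha
  have ha' : (a : F) ≠ 0 := fun h => ha0 (Subtype.ext h)
  have h2 : a • y ∈ Submodule.span K⟮t⟯ (Set.range e) := by
    rw [hc]
    refine Submodule.sum_mem _ fun i _ => ?_
    have : aeval t (c i) * e i = (aeval (AdjoinSimple.gen K t) (c i) : K⟮t⟯) • e i := by
      rw [Algebra.smul_def]
      congr 1
      rw [← aeval_algebraMap_apply]
      rfl
    rw [this]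
    exact Submodule.smul_mem _ _ (Submodule.subset_span ⟨i, rfl⟩)
  have h3 : y = (algebraMap (Algebra.adjoin K ({t} : Set F)) K⟮t⟯ a)⁻¹ • (a • y) := by
    rw [Algebra.smul_def, Algebra.smul_def, map_inv₀]
    have : algebraMap K⟮t⟯ F (algebraMap (Algebra.adjoin K ({t} : Set F)) K⟮t⟯ a) = (a : F) := rfl
    rw [this]
    show y = (a : F)⁻¹ * ((a : F) * y)
    field_simp
  rw [h3]
  exact Submodule.smul_mem _ _ h2

/-- coefficients of the conjugate basis -/
theorem exists_coef (he : RB K t N e) {b : K} (τ : F →ₐ[K] F) (hτ : τ t = t + algebraMap K F b) :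
    ∃ P : Matrix (Fin N) (Fin N) K[X], ∀ j, τ (e j) = ∑ i, aeval t (P j i) * e i := by
  choose P hP using fun j => he.span _ (int_map τ hτ (he.int j))
  exact ⟨P, hP⟩

theorem unit_det (he : RB K t N e) {b : K} (T : F ≃ₐ[K] F)
    (hT : T t = t + algebraMap K F b) (P : Matrix (Fin N) (Fin N) K[X])
    (hP : ∀ j, T (e j) = ∑ i, aeval t (P j i) * e i) : IsUnit P.det := by
  have hT' : (T.symm : F →ₐ[K] F) t = t + algebraMap K F (-b) := by
    have : T (t + algebraMap K F (-b)) = t := by
      rw [map_add, hT, AlgEquiv.commutes, map_neg]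
      ring
    show T.symm t = _
    rw [AlgEquiv.symm_apply_eq, this]
  obtain ⟨Q, hQ⟩ := exists_coef he (T.symm : F →ₐ[K] F) hT'
  set Q' : Matrix (Fin N) (Fin N) K[X] := Q.map fun p => p.comp (X + C b) with hQ'
  have hmul : Q' * P = 1 := by
    ext1 j k
    have h1 : e j = ∑ i, aeval t (Q' j i) * ∑ k, aeval t (P i k) * e k := by
      have h2 : T (T.symm (e j)) = e j := T.apply_symm_apply _
      have h3 : T.symm (e j) = ∑ i, aeval t (Q j i) * e i := hQ j
      rw [h3, map_sum] at h2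
      rw [← h2]
      refine Finset.sum_congr rfl fun i _ => ?_
      rw [map_mul, hP i]
      congr 1
      exact map_aeval (T : F →ₐ[K] F) hT _
    have h2 : ∑ k, aeval t ((Q' * P) j k - (1 : Matrix (Fin N) (Fin N) K[X]) j k) * e k = 0 := by
      simp only [map_sub, sub_mul, Finset.sum_sub_distrib]
      have h3 : ∑ k, aeval t ((1 : Matrix (Fin N) (Fin N) K[X]) j k) * e k = e j := by
        rw [Finset.sum_eq_single j]
        · rw [Matrix.one_apply_eq, map_one, one_mul]
        · intro k _ hk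
          rw [Matrix.one_apply_ne (Ne.symm hk), map_zero, zero_mul]
        · intro h
          exact absurd (Finset.mem_univ _) h
      rw [h3]
      have h4 : ∑ k, aeval t ((Q' * P) j k) * e k = e j := by
        rw [h1]
        simp only [Matrix.mul_apply, map_sum, map_mul, Finset.sum_mul, Finset.mul_sum]
        rw [Finset.sum_comm]
        refine Finset.sum_congr rfl fun i _ => Finset.sum_congr rfl fun k _ => ?_
        ring
      rw [h4, sub_self]
    have h3 := congrFun (he.li _ h2) k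
    exact sub_eq_zero.1 h3
  have h := congrArg Matrix.det hmul
  rw [Matrix.det_mul, Matrix.det_one] at h
  exact IsUnit.of_mul_eq_one _ (by rw [mul_comm]; exact h)

/-- the restriction of `T` to `K(t)` -/
noncomputable def sig {b : K} (T : F ≃ₐ[K] F) (hT : T t = t + algebraMap K F b)
    (hT' : T.symm t = t + algebraMap K F (-b)) : K⟮t⟯ ≃+* K⟮t⟯ where
  toFun x := ⟨T x, map_mem_L (T : F →ₐ[K] F) hT x.2⟩
  invFun x := ⟨T.symm x, map_mem_L (T.symm : F →ₐ[K] F) hT' x.2⟩
  left_inv x := by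
    apply Subtype.ext
    exact T.symm_apply_apply _
  right_inv x := by
    apply Subtype.ext
    exact T.apply_symm_apply _
  map_mul' x y := by
    apply Subtype.ext
    exact map_mul T (x : F) (y : F)
  map_add' x y := by
    apply Subtype.ext
    exact map_add T (x : F) (y : F)

theorem sig_coe {b : K} (T : F ≃ₐ[K] F) (hT : T t = t + algebraMap K F b)
    (hT' : T.symm t = t + algebraMap K F (-b)) (x : K⟮t⟯) : ((sig T hT hT' x : K⟮t⟯) : F) = T x := rfl

theorem discr_map {b : K} (T : F ≃ₐ[K] F) (hT : T t = t + algebraMap K F b)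
    (hT' : T.symm t = t + algebraMap K F (-b)) (e : Fin N → F) :
    Algebra.discr K⟮t⟯ (fun i => T (e i)) = sig T hT hT' (Algebra.discr K⟮t⟯ e) := by
  have htr : ∀ x : F, Algebra.trace K⟮t⟯ F (T x) = sig T hT hT' (Algebra.trace K⟮t⟯ F x) := by
    intro x
    have h := Algebra.trace_eq_of_equiv_equiv (sig T hT hT') (T : F ≃+* F) (by ext x; rfl) x
    rw [h, RingEquiv.apply_symm_apply]
    rfl
  rw [Algebra.discr_def, Algebra.discr_def]
  have h2 : (sig T hT hT') (Algebra.traceMatrix K⟮t⟯ e).det =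
      ((Algebra.traceMatrix K⟮t⟯ e).map (sig T hT hT')).det := by
    have := RingHom.map_det ((sig T hT hT' : K⟮t⟯ ≃+* K⟮t⟯) : K⟮t⟯ →+* K⟮t⟯)
      (Algebra.traceMatrix K⟮t⟯ e)
    exact this
  rw [h2]
  congr 1
  ext1 i j
  rw [Matrix.map_apply, Algebra.traceMatrix_apply, Algebra.traceMatrix_apply,
    Algebra.traceForm_apply, Algebra.traceForm_apply, ← map_mul, htr]

end

theorem const_of_invariant {K : Type u} [Field K] [IsAlgClosed K] (δ : K[X]) (h0 : δ ≠ 0)
    (h : ∀ b : K, ∃ u : K, δ.comp (X + C b) = C u * δ) : ∃ c : K, c ≠ 0 ∧ δ = C c := by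
  by_cases hd : δ.degree = 0
  · have h1 := Polynomial.eq_C_of_degree_eq_zero hd
    refine ⟨δ.coeff 0, ?_, h1⟩
    intro h2
    rw [h2, C_0] at h1
    exact h0 h1
  · exfalso
    obtain ⟨r, hr⟩ := IsAlgClosed.exists_root δ hd
    apply h0
    apply Polynomial.funext
    intro x
    obtain ⟨u, hu⟩ := h (x - r)
    have h2 := congrArg (Polynomial.eval r) hu
    rw [eval_comp, eval_mul, eval_C, hr.eq_zero] at h2
    simp only [eval_add, eval_X, eval_C, mul_zero] at h2
    rw [eval_zero, ← h2]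
    congr 1
    ring

theorem t_P1D : S_P1D.{u} := by
  intro K F _ _ _ _ t ht hfd hsep hτ N e he
  have hinj : Function.Injective (aeval t : K[X] →ₐ[K] F) := transcendental_iff_injective.1 ht
  have hli := li_L he
  have hsp := span_L he
  have hD0 : Algebra.discr K⟮t⟯ e ≠ 0 := by
    have := Algebra.discr_not_zero_of_basis K⟮t⟯ (Module.Basis.mk hli hsp)
    rwa [Module.Basis.coe_mk] at this
  have hint : IsIntegral (Algebra.adjoin K ({t} : Set F)) (Algebra.discr K⟮t⟯ e) :=
    Algebra.discr_isIntegral K⟮t⟯ he.int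
  have hIC : IsIntegrallyClosed (Algebra.adjoin K ({t} : Set F)) :=
    IsIntegrallyClosed.of_equiv (Polynomial.algEquivOfTranscendental K t ht).toRingEquiv
  obtain ⟨y, hy⟩ := IsIntegrallyClosed.isIntegral_iff.1 hint
  obtain ⟨δ, hδ⟩ := mem_A y.2
  have hD : ((Algebra.discr K⟮t⟯ e : K⟮t⟯) : F) = aeval t δ := by
    rw [← hy, hδ]
    rfl
  have hδ0 : δ ≠ 0 := by
    rintro rfl
    apply hD0
    apply Subtype.ext
    rw [hD]
    simp
  have hinv : ∀ b : K, ∃ u : K, δ.comp (X + C b) = C u * δ := by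
    intro b
    obtain ⟨τ, hτb⟩ := hτ b
    obtain ⟨τ', hτb'⟩ := hτ (-b)
    have hbij : Function.Bijective τ := by
      refine ⟨τ.toRingHom.injective, ?_⟩
      have h1 : Function.Bijective (τ.comp τ') := by
        apply bij_of_fix (t := t)
        rw [AlgHom.comp_apply, hτb', map_add, hτb, AlgHom.commutes, map_neg]
        ring
      intro z
      obtain ⟨w, hw⟩ := h1.2 z
      exact ⟨τ' w, hw⟩
    let T : F ≃ₐ[K] F := AlgEquiv.ofBijective τ hbij
    have hT : T t = t + algebraMap K F b := hτb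
    have hT' : T.symm t = t + algebraMap K F (-b) := by
      rw [AlgEquiv.symm_apply_eq, map_add, hT, AlgEquiv.commutes, map_neg]
      ring
    obtain ⟨P, hP⟩ := exists_coef he (T : F →ₐ[K] F) hT
    obtain ⟨v, -, hv⟩ := Polynomial.isUnit_iff.1 (unit_det he T hT P hP)
    have h1 := discr_map T hT hT' e
    set PL : Matrix (Fin N) (Fin N) K⟮t⟯ := P.map (aeval (AdjoinSimple.gen K t)) with hPL
    have h2 : (fun i => T (e i)) = (PL.map (algebraMap K⟮t⟯ F)).mulVec e := by
      funext j
      have : T (e j) = ∑ i, aeval t (P j i) * e i := hP j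
      rw [this, Matrix.mulVec, dotProduct]
      refine Finset.sum_congr rfl fun i _ => ?_
      congr 1
      rw [Matrix.map_apply, hPL, Matrix.map_apply, ← aeval_algebraMap_apply]
      rfl
    rw [h2, Algebra.discr_of_matrix_mulVec] at h1
    have h3 : PL.det = algebraMap K K⟮t⟯ v := by
      have := AlgHom.map_det (aeval (AdjoinSimple.gen K t) : K[X] →ₐ[K] K⟮t⟯) P
      rw [← hv] at this
      rw [aeval_C] at this
      rw [this]
      rfl
    rw [h3] at h1
    have h4 := congrArg (fun x : K⟮t⟯ => (x : F)) h1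
    simp only [sig_coe] at h4
    have h5 : T (aeval t δ) = aeval t (δ.comp (X + C b)) := map_aeval (T : F →ₐ[K] F) hT δ
    rw [hD, h5] at h4
    refine ⟨v ^ 2, hinj ?_⟩
    rw [← h4, map_mul, aeval_C]
    push_cast
    rw [hD]
  obtain ⟨c, hc0, hc⟩ := const_of_invariant δ hδ0 hinv
  refine ⟨c, hc0, ?_⟩
  apply Subtype.ext
  rw [hD, hc, aeval_C]
  rfl

end Pool.Agent.J6H75.BSV
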